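import Mathlib
import Pool.Agent.Run7.h16.MQ.StmC

/-!
# Counting fields with Galois group `C₂ ≀ H`, `H` in a tower of epimorphisms above a Galois group

A finite group `H` acts on itself by multiplication, and `C₂ ≀ H` acts on `H × {0, 1}`, a set with
`n = 2 |H|` elements. `N_{n,K}(B; G)` is the number of the fields of degree `n` over `K` (in an algebraic
closure) with Galois group `G` and relative discriminant of norm at most `B`.

`Cls K` (file `Pool/Agent/TH444/TW/ClsDef.lean`) is the smallest class of epimorphisms which contains the
split ones with a finite abelian kernel, the projections `A^k ⋊ Γ → Γ`, `A` a regular Galois group over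
`K(t)`, `Γ` acting through `A ≀ S_k`, the projections `(G ≀ S_n)^k ⋊ Γ → Γ`, `G` any finite group,
`n ≥ ((3 |G| + 2)!)^3`, `Γ` acting through `Aut(G) ≀ S_k`, and some nonsplit ones, and which is closed
under compositions and quotients. Let `p : H → Γ` be in this class, `H` and `Γ` finite, and let `H` have
a subgroup `U` with trivial core such that `8 [H : U] ([H : U] + 1) ≤ |H|`. If `Γ` is a Galois group over
the number field `K` then `N_{n,K}(B; C₂ ≀ H) ~ c B` with `c > 0`.

For `Γ = 1` and the trivial tower this is a theorem of Klüners (starting files `TH444/ML`); that the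
groups in towers are Galois groups is the starting result `MP_dadaab_nt` TwistedWreath.
-/

set_option autoImplicit false

open Pool.Agent.H391R2 (Wr)
open Pool.Agent.N600.UK (Univ)
open Pool.Agent.TH444.TW (Cls)
open Run7.h16.MQ (Data)
open Run7.h16.MQ.C

namespace Pool.Agent.Results.MP_bf81c2_nt.ClassTowers

theorem result (K : Type) [Field K] [NumberField K] (H Γ : Type) [Group H] [Finite H] [Group Γ]
    [Finite Γ] (p : H →* Γ) (hp : Cls K p) (hΓ : IsGaloisGroupOver K Γ) (U : Subgroup H)
    (hU : U.normalCore = ⊥) (hc : 8 * U.index * (U.index + 1) ≤ Nat.card H) :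
    GroupExists H ∧ LinearCount K H := by
  have h1 : 0 < U.index := Nat.pos_of_ne_zero Subgroup.index_ne_zero_of_finite
  have hd : Data H := ⟨inferInstance, by nlinarith, U, hU, hc⟩
  exact ⟨exists_group H, linear_of_real hd K
    (Run7.h16.MQ.cls_real K p hp ((galois_iff K Γ).1 hΓ))⟩

end Pool.Agent.Results.MP_bf81c2_nt.ClassTowers
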