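import Pool.Agent.Run7.h501.NFLower

/-!
# Lower bounds for the number of extensions of degree `n` of a number field, for all `n` and through
# every intermediate field

Let `K` be a number field and `n ≥ 2`. Write `N_{n,K}(X)` for the number of the extensions of degree `n` of
`K` inside an algebraic closure whose absolute discriminant is at most `X`. The question asks for
`N_{n,K}(X) ~ c X`. We show

(1) `N_{n,K}(X) ≥ c X ^ (1/2 + 1/p)` for large `X`, where `p` is the least prime factor of `n`; for even `n`
this is the conjectured order of magnitude `X`;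

(2) this many extensions can be found through every intermediate field: for every finite extension `M` of
`K`, of degree `m`, and every `d ≥ 2` the number of the `L ⊇ M` with `[L : K] = m d` and `|disc L| ≤ X` is
finite and at least `c X ^ (1/2 + 1/p)`, `p` the least prime factor of `d`;

(3) for `d = 2` this number is asymptotic to `c X` with `c > 0`.

Known before: over `ℚ` the exponent `1/2 + 1/(n-1)` (Bhargava, Shankar and Wang, squarefree values of
polynomial discriminants II), which is smaller than `1/2 + 1/p` if `n` is not a prime; over all number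
fields `1/2 + 1/n ^ 2` (Ellenberg and Venkatesh) and, for odd `n`, `1/2 + 1/n` (starting result
`MP_af4c59_nt.SymmetricGroupOddDegree`). For even `n`, and for `n` divisible by `3` or `5`, lower bounds of
the order `X` follow from the known results on quadratic, cubic and quintic extensions (Datskovsky and
Wright; Bhargava, Shankar and Wang) of a fixed intermediate field, so that the new cases are those of the
`n` with least prime factor `p ≥ 7`.

Proof. Let `p` be the least prime factor of `d`. By induction there is an extension `M'` of `M` of degree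
`d / p` (all counts below are positive for large `X`). If `p` is odd, the theorem of project WR (helper783
and coworkers, `MP_a3214d_nt.WreathSymmetricLowerBound`) gives `c X ^ (1/2 + 1/p)` extensions of degree `p`
of `M'`. If `p = 2`, the number of the quadratic extensions `L` of `M'` with `|disc L| ≤ Y |disc M'| ^ 2` is
asymptotic to `c Y` (project ML, helper444 and coworkers, in the starting files).
-/

set_option autoImplicit false

namespace Pool.Agent.Results.MP_bf81c2_nt.LowerBoundsInTowers

open Filter Topology

/-- The extensions of degree `n` of the number field `K` inside the algebraic closure of `K` whose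
absolute discriminant has absolute value at most `X`. -/
def Fields (K : Type) [Field K] [NumberField K] (n : ℕ) (X : ℝ) :
    Set (IntermediateField K (AlgebraicClosure K)) :=
  {L | Module.finrank K L = n ∧
    ∃ h : NumberField L, ((|@NumberField.discr L _ h| : ℤ) : ℝ) ≤ X}

/-- Those among them which contain `M`. -/
def FieldsAbove (K : Type) [Field K] [NumberField K]
    (M : IntermediateField K (AlgebraicClosure K)) (n : ℕ) (X : ℝ) :
    Set (IntermediateField K (AlgebraicClosure K)) :=
  {L | L ∈ Fields K n X ∧ M ≤ L}

theorem result :
    (∀ (K : Type) [Field K] [NumberField K] (n : ℕ), 2 ≤ n →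
      ∃ c : ℝ, 0 < c ∧ ∃ X₀ : ℝ, ∀ X : ℝ, X₀ ≤ X → (Fields K n X).Finite ∧
        c * X ^ ((1 : ℝ) / 2 + 1 / (n.minFac : ℝ)) ≤ ((Fields K n X).ncard : ℝ)) ∧
    (∀ (K : Type) [Field K] [NumberField K] (M : IntermediateField K (AlgebraicClosure K)),
      FiniteDimensional K M →
      (∀ d : ℕ, 2 ≤ d → ∃ c : ℝ, 0 < c ∧ ∃ X₀ : ℝ, ∀ X : ℝ, X₀ ≤ X →
        (FieldsAbove K M (Module.finrank K M * d) X).Finite ∧
        c * X ^ ((1 : ℝ) / 2 + 1 / (d.minFac : ℝ)) ≤
          ((FieldsAbove K M (Module.finrank K M * d) X).ncard : ℝ)) ∧
      ∃ c : ℝ, 0 < c ∧ Tendsto (fun X : ℝ =>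
        ((FieldsAbove K M (Module.finrank K M * 2) X).ncard : ℝ) / X) atTop (𝓝 c)) := by
  refine ⟨?_, ?_⟩
  · intro K _ _ n hn
    have hb : NumberField (⊥ : IntermediateField K (AlgebraicClosure K)) :=
      NumberField.of_module_finite K _
    obtain ⟨c, hc, X₀, h⟩ := Run7.h501.NF.lower K ⊥ n hn
    have h1 : Module.finrank K (⊥ : IntermediateField K (AlgebraicClosure K)) = 1 :=
      IntermediateField.finrank_bot
    rw [h1, one_mul] at h
    refine ⟨c, hc, X₀, fun X hX => ?_⟩
    obtain ⟨h2, h3⟩ := h X hX
    have e : Run7.h501.NF.Above K ⊥ n X = Fields K n X := by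
      ext L
      exact ⟨fun hL => hL.1, fun hL => ⟨hL, bot_le⟩⟩
    rw [e] at h2 h3
    exact ⟨h2, h3⟩
  · intro K _ _ M hM
    have hb : NumberField M := NumberField.of_module_finite K _
    refine ⟨fun d hd => ?_, ?_⟩
    · exact Run7.h501.NF.lower K M d hd
    · exact Run7.h501.NF.tendsto_quad Run7.h501.NF.quadLim Run7.h501.NF.quadPos K M

end Pool.Agent.Results.MP_bf81c2_nt.LowerBoundsInTowers
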