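import Mathlib
import Pool.Agent.Run7.h16.MQ.StmC

/-!
# Counting fields with Galois group `C₂ ≀ X`, `X` any extension of a Galois group by a universal kernel

A finite group `X` acts on itself by multiplication, and `C₂ ≀ X` acts on `X × {0, 1}`, a set with
`n = 2 |X|` elements. `N_{n,K}(B; G)` is the number of the fields of degree `n` over `K` (in an algebraic
closure) with Galois group `G` and relative discriminant of norm at most `B`.

`Univ` (file `Pool/Agent/N600/UK/Defs.lean`) is a class of finite groups which contains the twofold
wreath products `(G ≀ S_m) ≀ S_n` of EVERY nontrivial finite group `G` with trivial centre (with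
`|Out G|` dividing `m` and `m`, `n` large), the wreath products `G ≀ S_n` if `Inn G` has a complement in
`Aut G`, complete groups which are regular over all infinite fields, and which is closed under direct
products, direct factors, characteristic extensions, and under `T ↦ T ≀ S_n` for `n ≥ 2 (|T| + 2)`.

**Theorem.** Let `X` be ANY finite group with a normal subgroup `N` which is isomorphic to a group `T`
of this class (the extension `1 → N → X → X / N → 1` need not split, and `X / N` may act in any way), and
suppose that `T` has a subgroup `U` with trivial core such that `8 [T : U] ([T : U] |X / N| + 1) ≤ |T|`,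
which is to say that `|X / N|` is not too large in comparison with `|T|`. Then for EVERY number field `K`
the quotient `N_{n,K}(B; C₂ ≀ X) / B` converges for `B → ∞`:

* if `X / N` is a Galois group over `K` then `N_{n,K}(B; C₂ ≀ X) ~ c B` with `c > 0`;
* if `X / N` is not a Galois group over `K` then `N_{n,K}(B; C₂ ≀ X) = 0` for all `B`.

The hypotheses are made explicit for the direct products of wreath products `G_i ≀ S_{n_i}`, where the
`G_i` are finitely many arbitrary nontrivial finite groups with trivial centre, `|Out G_i|` divides
`n_i` and `n_i ≥ ((3 |Aut G_i| + 2)!)^3`, `((3 |G_i| + 2)!)^3`: the theorem holds for all groups `X` with a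
normal subgroup `N` of finite index which is isomorphic to such a product and
`|X / N| ≤ ∏ |G_i|^(n_i - 2) (n_i - 3)!`.

The question asks for `N_{n,K}(B) ~ c B` for the sum over all groups; here is the contribution of the
groups `C₂ ≀ X`. The realization of `X` is that of the starting result `MP_dadaab_nt` UniversalKernels;
the counting of the quadratic extensions of the fields with Galois group `X` (a theorem of Klüners, if
`X` is a Galois group) is that of the starting files `TH444/ML`, which needs a subgroup of `X` with
trivial core and small index. It is constructed here inside of `N`.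
-/

set_option autoImplicit false

open Pool.Agent.H391R2 (Wr)
open Pool.Agent.N600.UK (Univ)
open Pool.Agent.TH444.TW (Cls)
open Run7.h16.MQ (Data)
open Run7.h16.MQ.C

namespace Pool.Agent.Results.MP_bf81c2_nt.UniversalKernels

/-- The theorem for all kernels of the class `Univ`. -/
def General : Prop :=
  ∀ (T : Type) [Group T], Univ T → ∀ U : Subgroup T, U.normalCore = ⊥ →
    ∀ (X : Type) [Group X] (N : Subgroup X) [N.Normal], Nonempty (N ≃* T) → Finite (X ⧸ N) →
      8 * U.index * (U.index * Nat.card (X ⧸ N) + 1) ≤ Nat.card T →
      GroupExists X ∧ Criterion X (X ⧸ N)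

/-- The theorem for the direct products of wreath products `G_i ≀ S_{n_i}`, `|Out G_i|` dividing
`n_i`. -/
def Explicit : Prop :=
  ∀ (I : Type) [Fintype I] [Nonempty I] (G : I → Type) [∀ i, Group (G i)] [∀ i, Finite (G i)]
    [∀ i, Nontrivial (G i)] (n : I → ℕ), (∀ i, Subgroup.center (G i) = ⊥) →
    (∀ i, ((3 * Nat.card (G i) + 2).factorial) ^ 3 ≤ n i) →
    (∀ i, (MulAut.conj : G i →* MulAut (G i)).range.index ∣ n i) →
    (∀ i, ((3 * Nat.card (MulAut (G i)) + 2).factorial) ^ 3 ≤ n i) →
    ∀ (X : Type) [Group X] (N : Subgroup X) [N.Normal],
      Nonempty (N ≃* ∀ i, Wr (G i) (n i)) → Finite (X ⧸ N) →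
      Nat.card (X ⧸ N) ≤ ∏ i, (Nat.card (G i) ^ (n i - 2) * (n i - 3).factorial) →
      GroupExists X ∧ Criterion X (X ⧸ N)

theorem result : General ∧ Explicit := by
  refine ⟨?_, ?_⟩
  · intro T _ hT U hU X _ N _ hN hfin hc
    obtain ⟨hd, hr⟩ := Run7.h16.MQ.univ_data hT U hU N hN hfin hc
    have hf := hd.finite
    exact ⟨exists_group X, criterion_of hd hr⟩
  · intro I _ _ G _ _ _ n hZ hn hdv hn' X _ N _ hN hfin hq
    have hd := Run7.h16.MQ.prod_data hn X N hN hfin hq
    have hf := hd.finite
    exact ⟨exists_group X, criterion_of hd fun K _ _ => Pool.Agent.N600.NS.kernel_real hZ hdv hn' K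
      (Pool.Agent.H391R2.T4.hilb_numberField K) X N hN hfin⟩

end Pool.Agent.Results.MP_bf81c2_nt.UniversalKernels
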