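import Mathlib
import Pool.Agent.Run7.h16.MQ.StmC

/-!
# Counting fields with Galois group `C₂ ≀ X`, `X` an extension by a product of groups `G ≀ S_n`

A finite group `X` acts on itself by multiplication, and `C₂ ≀ X` acts on `X × {0, 1}`, a set with
`n = 2 |X|` elements. `N_{n,K}(B; G)` is the number of the fields of degree `n` over `K` (in an algebraic
closure) with Galois group `G` and relative discriminant of norm at most `B`.

Let `G_i` be finitely many ARBITRARY nontrivial finite groups with trivial centre,
`n_i ≥ ((3 |G_i| + 2)!)^3`, and let `X` be any group with a normal subgroup `N` of finite index which is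
isomorphic to the direct product of the groups `G_i ≀ S_{n_i}`, such that
`|X / N| ≤ ∏ |G_i|^(n_i - 2) (n_i - 3)!`. (The extension need not split.)

* There is a Frattini cover `Q` of `X / N` (a finite group with a surjection to `X / N` whose kernel is
  contained in the Frattini subgroup) such that `N_{n,K}(B; C₂ ≀ X) ~ c B`, `c > 0`, over all number
  fields `K` over which `Q` is a Galois group.
* So if `X / N` is solvable then it holds over all number fields over which the solvable groups are
  Galois groups (these are all number fields, by Shafarevich's theorem, which is not used here).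
* If all Sylow subgroups of `X / N` are cyclic (for example if `X / N` is cyclic or of squarefree order,
  or trivial) then `N_{n,K}(B; C₂ ≀ X) ~ c B`, `c > 0`, for all number fields `K`.

No condition on the outer automorphisms of the groups `G_i` is needed. The realization of `X` is that
of the starting results `MP_dadaab_nt` SolvableQuotients and NonsplitFibrePowers; the counting of the
quadratic extensions of the fields with Galois group `X` is that of the starting files `TH444/ML`, which
needs a subgroup of `X` with trivial core and small index. It is constructed here inside of `N`.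
-/

set_option autoImplicit false

open Pool.Agent.H391R2 (Wr)
open Pool.Agent.N600.UK (Univ)
open Pool.Agent.TH444.TW (Cls)
open Run7.h16.MQ (Data)
open Run7.h16.MQ.C

namespace Pool.Agent.Results.MP_bf81c2_nt.WreathProductKernels

theorem result (I : Type) [Fintype I] [Nonempty I] (G : I → Type) [∀ i, Group (G i)]
    [∀ i, Finite (G i)] [∀ i, Nontrivial (G i)] (n : I → ℕ) (hZ : ∀ i, Subgroup.center (G i) = ⊥)
    (hn : ∀ i, ((3 * Nat.card (G i) + 2).factorial) ^ 3 ≤ n i)
    (X : Type) [Group X] (N : Subgroup X) [N.Normal]
    (hN : Nonempty (N ≃* ∀ i, Wr (G i) (n i))) (hfin : Finite (X ⧸ N))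
    (hq : Nat.card (X ⧸ N) ≤ ∏ i, (Nat.card (G i) ^ (n i - 2) * (n i - 3).factorial)) :
    GroupExists X ∧ CoverTheorem X (X ⧸ N) ∧
      (Group.IsSolvable (X ⧸ N) → ∀ (K : Type) [Field K] [NumberField K],
        SolvableRealizable K → LinearCount K X) ∧
      (IsZGroup (X ⧸ N) → ∀ (K : Type) [Field K] [NumberField K], LinearCount K X) := by
  have hd := Run7.h16.MQ.prod_data hn X N hN hfin hq
  have hf := hd.finite
  obtain ⟨Q, i1, i2, π, hπ, hQ⟩ := Pool.Agent.N600.ZQ.frat_main hZ hn X N hN hfin
  have hcov : ∀ (K : Type) [Field K] [NumberField K], IsGaloisGroupOver K Q →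
      LinearCount K X := fun K _ _ hK => linear_of_real hd K (hQ.1 K ((galois_iff K Q).1 hK))
  refine ⟨exists_group X, ⟨Q, i1, i2, π, hπ, hcov, hπ.solvable⟩, ?_, ?_⟩
  · intro hs K _ _ hK
    exact hcov K (hK Q (hπ.solvable hs))
  · intro hz
    have hr := (Pool.Agent.N600.ZQ.z_main hZ hn X N hN hfin).1
    exact fun K _ _ => linear_of_real hd K (hr K)

end Pool.Agent.Results.MP_bf81c2_nt.WreathProductKernels
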